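import Pool.Agent.W412.TI.Spec

set_option autoImplicit false
set_option linter.unusedSectionVars false

namespace Pool.Agent.W476.TI

open Set Filter Topology Pool.Agent.W412.TI

noncomputable section

lemma err_nonneg (F : C(unitInterval, unitInterval)) (t : ℝ) : 0 ≤ err F t := dist_nonneg

lemma amp_nonneg (F : C(unitInterval, unitInterval)) (t : ℝ) : 0 ≤ amp F t := by
  unfold amp
  have := err_nonneg F t
  positivity

lemma gR_eq (c : ℝ) (F : C(unitInterval, unitInterval)) (t x : ℝ) :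
    gR c F t x = lo F t x + saw c t x * (hi F t x - lo F t x) := by
  unfold gR; ring

section
variable (h1 : S_FOLD) (h2 : S_AVG)
include h1 h2

lemma lo_mem (F : C(unitInterval, unitInterval)) (t x : ℝ) : 0 ≤ lo F t x ∧ lo F t x ≤ 1 := by
  have ha := h2.1 F t x
  have hm := amp_nonneg F t
  unfold lo
  exact ⟨le_max_left _ _, max_le zero_le_one (by linarith)⟩

lemma hi_mem (F : C(unitInterval, unitInterval)) (t x : ℝ) : 0 ≤ hi F t x ∧ hi F t x ≤ 1 := by
  have ha := h2.1 F t x
  have hm := amp_nonneg F t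
  unfold hi
  exact ⟨le_min zero_le_one (by linarith), min_le_left _ _⟩

lemma lo_close (F : C(unitInterval, unitInterval)) (t x : ℝ) : |lo F t x - avg F t x| ≤ amp F t := by
  have ha := h2.1 F t x
  have hm := amp_nonneg F t
  unfold lo
  rw [abs_le]
  rcases max_cases 0 (avg F t x - amp F t) with ⟨e, h⟩ | ⟨e, h⟩ <;> rw [e] <;> constructor <;> linarith

lemma hi_close (F : C(unitInterval, unitInterval)) (t x : ℝ) : |hi F t x - avg F t x| ≤ amp F t := by
  have ha := h2.1 F t x
  have hm := amp_nonneg F t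
  unfold hi
  rw [abs_le]
  rcases min_cases 1 (avg F t x + amp F t) with ⟨e, h⟩ | ⟨e, h⟩ <;> rw [e] <;> constructor <;> linarith

lemma saw_mem (c t x : ℝ) : 0 ≤ saw c t x ∧ saw c t x ≤ 1 := ⟨h1.1 _, h1.2.1 _⟩

lemma gR_mem (c : ℝ) (F : C(unitInterval, unitInterval)) (t x : ℝ) :
    gR c F t x ∈ Icc (0 : ℝ) 1 := by
  have hl := lo_mem h1 h2 F t x
  have hh := hi_mem h1 h2 F t x
  have hs := saw_mem h1 h2 c t x
  unfold gR
  constructor
  · have e1 := mul_nonneg (sub_nonneg.mpr hs.2) hl.1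
    have e2 := mul_nonneg hs.1 hh.1
    linarith
  · have e1 := mul_nonneg (sub_nonneg.mpr hs.2) (sub_nonneg.mpr hl.2)
    have e2 := mul_nonneg hs.1 (sub_nonneg.mpr hh.2)
    nlinarith

lemma gR_close (c : ℝ) (F : C(unitInterval, unitInterval)) (t x : ℝ) :
    |gR c F t x - avg F t x| ≤ amp F t := by
  have hl := abs_le.mp (lo_close h1 h2 F t x)
  have hh := abs_le.mp (hi_close h1 h2 F t x)
  have hs := saw_mem h1 h2 c t x
  have h0 : gR c F t x - avg F t x =
      (1 - saw c t x) * (lo F t x - avg F t x) + saw c t x * (hi F t x - avg F t x) := by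
    unfold gR; ring
  rw [h0, abs_le]
  have hs' : 0 ≤ 1 - saw c t x := sub_nonneg.mpr hs.2
  constructor
  · have e1 := mul_nonneg hs' (by linarith : 0 ≤ lo F t x - avg F t x + amp F t)
    have e2 := mul_nonneg hs.1 (by linarith : 0 ≤ hi F t x - avg F t x + amp F t)
    nlinarith
  · have e1 := mul_nonneg hs' (by linarith : 0 ≤ amp F t - (lo F t x - avg F t x))
    have e2 := mul_nonneg hs.1 (by linarith : 0 ≤ amp F t - (hi F t x - avg F t x))
    nlinarith

lemma cont_amp : Continuous fun p : (C(unitInterval, unitInterval) × ℝ) × unitInterval =>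
    amp p.1.1 p.1.2 := by
  unfold amp
  have h3 : Continuous fun p : (C(unitInterval, unitInterval) × ℝ) × unitInterval =>
      err p.1.1 p.1.2 := h2.2.2.2.1.comp continuous_fst
  fun_prop

lemma cont_avg : Continuous fun p : (C(unitInterval, unitInterval) × ℝ) × unitInterval =>
    avg p.1.1 p.1.2 (p.2 : ℝ) := by
  have := continuous_avg.comp (by fun_prop : Continuous fun
    p : (C(unitInterval, unitInterval) × ℝ) × unitInterval => (p.1.1, p.1.2, (p.2 : ℝ)))
  exact this

lemma cont_lo : Continuous fun p : (C(unitInterval, unitInterval) × ℝ) × unitInterval =>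
    lo p.1.1 p.1.2 (p.2 : ℝ) := by
  unfold lo
  exact continuous_const.max ((cont_avg h1 h2).sub (cont_amp h1 h2))

lemma cont_hi : Continuous fun p : (C(unitInterval, unitInterval) × ℝ) × unitInterval =>
    hi p.1.1 p.1.2 (p.2 : ℝ) := by
  unfold hi
  exact continuous_const.min ((cont_avg h1 h2).add (cont_amp h1 h2))

lemma amp_zero (F : C(unitInterval, unitInterval)) : amp F 0 = 0 := by
  unfold amp
  rw [h2.2.2.2.2.2 F]; simp

lemma lo_zero (F : C(unitInterval, unitInterval)) (x : unitInterval) :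
    lo F 0 (x : ℝ) = F x := by
  unfold lo
  rw [amp_zero h1 h2, sub_zero, h2.2.2.1 F x]
  exact max_eq_right (F x).2.1

lemma hi_zero (F : C(unitInterval, unitInterval)) (x : unitInterval) :
    hi F 0 (x : ℝ) = F x := by
  unfold hi
  rw [amp_zero h1 h2, add_zero, h2.2.2.1 F x]
  exact min_eq_right (F x).2.2

lemma cont_gR (c : ℝ) : Continuous fun p : (C(unitInterval, unitInterval) × ℝ) × unitInterval =>
    gR c p.1.1 p.1.2 (p.2 : ℝ) := by
  have e : (fun p : (C(unitInterval, unitInterval) × ℝ) × unitInterval =>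
      gR c p.1.1 p.1.2 (p.2 : ℝ)) = fun p => lo p.1.1 p.1.2 (p.2 : ℝ) +
        saw c p.1.2 (p.2 : ℝ) * (hi p.1.1 p.1.2 (p.2 : ℝ) - lo p.1.1 p.1.2 (p.2 : ℝ)) := by
    funext p; exact gR_eq _ _ _ _
  rw [e]
  refine (cont_lo h1 h2).add ?_
  have hd : Continuous fun p : (C(unitInterval, unitInterval) × ℝ) × unitInterval =>
      hi p.1.1 p.1.2 (p.2 : ℝ) - lo p.1.1 p.1.2 (p.2 : ℝ) :=
    (cont_hi h1 h2).sub (cont_lo h1 h2)
  rw [continuous_iff_continuousAt]
  intro p
  by_cases ht : p.1.2 = 0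
  · have h0 : saw c p.1.2 (p.2 : ℝ) * (hi p.1.1 p.1.2 (p.2 : ℝ) - lo p.1.1 p.1.2 (p.2 : ℝ)) = 0 := by
      rw [ht, hi_zero h1 h2, lo_zero h1 h2, sub_self, mul_zero]
    change Tendsto _ _ (𝓝 (saw c p.1.2 (p.2 : ℝ) *
      (hi p.1.1 p.1.2 (p.2 : ℝ) - lo p.1.1 p.1.2 (p.2 : ℝ))))
    rw [h0]
    have hd0 : Tendsto (fun p : (C(unitInterval, unitInterval) × ℝ) × unitInterval =>
        ‖hi p.1.1 p.1.2 (p.2 : ℝ) - lo p.1.1 p.1.2 (p.2 : ℝ)‖) (𝓝 p) (𝓝 0) := by
      have := (hd.norm).tendsto p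
      simp only [ht, hi_zero h1 h2, lo_zero h1 h2, sub_self, norm_zero] at this
      exact this
    refine squeeze_zero_norm (fun q => ?_) hd0
    rw [norm_mul]
    have hs := saw_mem h1 h2 c q.1.2 (q.2 : ℝ)
    have : ‖saw c q.1.2 (q.2 : ℝ)‖ ≤ 1 := by
      rw [Real.norm_eq_abs, abs_of_nonneg hs.1]; exact hs.2
    exact mul_le_of_le_one_left (norm_nonneg _) this
  · refine ContinuousAt.mul ?_ hd.continuousAt
    unfold saw
    refine ContinuousAt.comp (f := fun q : (C(unitInterval, unitInterval) × ℝ) × unitInterval =>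
      c * (q.2 : ℝ) / q.1.2 ^ 2) continuous_fold.continuousAt ?_
    refine ContinuousAt.div (by fun_prop) (by fun_prop) (pow_ne_zero 2 ht)

lemma cont_gR1 (c : ℝ) (q : C(unitInterval, unitInterval) × ℝ) :
    Continuous fun x : unitInterval => gR c q.1 q.2 (x : ℝ) := by
  have hc : Continuous fun x : unitInterval =>
      ((q, x) : (C(unitInterval, unitInterval) × ℝ) × unitInterval) :=
    Continuous.prodMk_right q
  have h3 := cont_gR h1 h2 c
  generalize hG : (fun p : (C(unitInterval, unitInterval) × ℝ) × unitInterval =>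
    gR c p.1.1 p.1.2 (p.2 : ℝ)) = G at h3
  have h4 : (fun x : unitInterval => gR c q.1 q.2 (x : ℝ)) = fun x => G (q, x) := by
    rw [← hG]
  rw [h4]
  exact h3.comp hc

/-- the family -/
def gg (c : ℝ) (q : C(unitInterval, unitInterval) × ℝ) : C(unitInterval, unitInterval) :=
  ⟨fun x => ⟨gR c q.1 q.2 x, gR_mem h1 h2 c q.1 q.2 x⟩, by
    exact Continuous.subtype_mk (cont_gR1 h1 h2 c q) _⟩

theorem gFacts : S_G := by
  refine ⟨gg h1 h2, fun c q x => rfl, ?_, ?_, ?_⟩
  · intro c
    refine ContinuousMap.continuous_of_continuous_uncurry _ ?_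
    refine Continuous.subtype_mk ?_ _
    exact cont_gR h1 h2 c
  · intro c F
    ext x
    show gR c F 0 (x : ℝ) = F x
    rw [gR_eq, hi_zero h1 h2, lo_zero h1 h2, sub_self, mul_zero, add_zero]
  · intro c F t
    rw [ContinuousMap.dist_le (by have := amp_nonneg F t; positivity)]
    intro x
    rw [Subtype.dist_eq, Real.dist_eq]
    show |gR c F t (x : ℝ) - F x| ≤ _
    have e1 := abs_le.mp (gR_close h1 h2 c F t x)
    have e2 := abs_le.mp (h2.2.2.2.2.1 F t x)
    have e3 : err F t ≤ amp F t := by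
      unfold amp
      have : 0 ≤ 5 * |t| := by positivity
      linarith
    rw [abs_le]
    constructor <;> linarith

end

end

end Pool.Agent.W476.TI
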